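import Pool.Agent.Helper93.FZ.St

/-!
# Project FZ, module MIN: lower bound for the entries of the least squares solution
-/

set_option autoImplicit false

namespace Pool.Agent.Helper34.FZ

open Finset
open Pool.Agent.Helper93.FZ

private lemma core {n : ℕ} {k x : ℝ} {A B C X Y Z : Fin n → Fin n → ℝ} {u v w : Fin n → ℝ}
    (hw : Wt n k A B C u v w) (hs : Sol A B C X Y Z) (h4 : 4 * k < n) (hx : x ≤ 1 / 2)
    (hb : Bd A B C X Y Z x) (m : ℝ) (hY : ∀ i j, m ≤ Y i j)
    (hZ : ∀ i j, m ≤ Z i j) (r c : Fin n) (hm : X r c = m) : (1 - 2 * x) / n ≤ m := by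
  have hn : (0 : ℝ) < n := by
    have : 0 < n := lt_of_le_of_lt (Nat.zero_le _) r.2
    exact_mod_cast this
  have hBn : ∑ s, B c s = n - v c := hw.cB c
  have hCn : ∑ s, C s r = n - u r := hw.rC r
  have e := hs.eA r c
  have hBY : ∑ s, B c s * Y c s ≤ x := hb.2.1 c
  have hCZ : ∑ s, C s r * Z s r ≤ x := by
    rw [← hs.gR r]; exact hb.1 r
  -- termwise inequality
  have t1 : ∀ s ∈ (univ : Finset (Fin n)),
      B c s * C s r * (X r c + Y c s + Z s r)
        ≤ m * (3 * (B c s * C s r) - B c s - C s r) + B c s * Y c s + C s r * Z s r := by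
    intro s _
    have h1 : 0 ≤ B c s * (1 - C s r) * (Y c s - m) :=
      mul_nonneg (mul_nonneg (hw.B0 c s) (by linarith [hw.C1 s r])) (by linarith [hY c s])
    have h2 : 0 ≤ C s r * (1 - B c s) * (Z s r - m) :=
      mul_nonneg (mul_nonneg (hw.C0 s r) (by linarith [hw.B1 c s])) (by linarith [hZ s r])
    rw [hm]
    nlinarith [h1, h2]
  have t2 := Finset.sum_le_sum t1
  rw [e, Finset.sum_add_distrib, Finset.sum_add_distrib, ← Finset.mul_sum] at t2
  set κ : ℝ := ∑ s, (3 * (B c s * C s r) - B c s - C s r) with hκ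
  have k1 : κ ≤ n := by
    have : κ ≤ ∑ s : Fin n, (1 : ℝ) := by
      rw [hκ]
      refine Finset.sum_le_sum fun s _ => ?_
      have h1 : 0 ≤ (1 - B c s) * (1 + C s r) :=
        mul_nonneg (by linarith [hw.B1 c s]) (by linarith [hw.C0 s r])
      have h2 : 0 ≤ B c s * (1 - C s r) := mul_nonneg (hw.B0 c s) (by linarith [hw.C1 s r])
      nlinarith [h1, h2]
    simpa using this
  have k2 : 0 < κ := by
    have h1 : ∑ s : Fin n, (2 * B c s + 2 * C s r - 3) ≤ κ := by
      rw [hκ]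
      refine Finset.sum_le_sum fun s _ => ?_
      have h1 : 0 ≤ (1 - B c s) * (1 - C s r) :=
        mul_nonneg (by linarith [hw.B1 c s]) (by linarith [hw.C1 s r])
      nlinarith [h1]
    have h2 : ∑ s : Fin n, (2 * B c s + 2 * C s r - 3) = 2 * (n - v c) + 2 * (n - u r) - 3 * n := by
      rw [Finset.sum_sub_distrib, Finset.sum_add_distrib, ← Finset.mul_sum, ← Finset.mul_sum,
        hBn, hCn]
      simp
      ring
    rw [h2] at h1
    linarith [hw.uk r, hw.vk c]
  have k3 : 1 - 2 * x ≤ m * κ := by linarith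
  have hm0 : 0 ≤ m := by
    by_contra hneg
    push Not at hneg
    have : m * κ < 0 := mul_neg_of_neg_of_pos hneg k2
    linarith
  rw [div_le_iff₀ hn]
  have : m * κ ≤ m * n := mul_le_mul_of_nonneg_left k1 hm0
  linarith

theorem hMIN : StMIN := by
  intro n k x A B C X Y Z u v w hw hs h4 hx hb
  rcases Nat.eq_zero_or_pos n with hn | hn
  · subst hn
    exact ⟨fun i => i.elim0, fun i => i.elim0, fun i => i.elim0⟩
  · haveI : Nonempty (Fin n) := ⟨⟨0, hn⟩⟩
    let f : (Fin n × Fin n) ⊕ ((Fin n × Fin n) ⊕ (Fin n × Fin n)) → ℝ :=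
      Sum.elim (fun p => X p.1 p.2) (Sum.elim (fun p => Y p.1 p.2) fun p => Z p.1 p.2)
    obtain ⟨p0, hp0⟩ := Finite.exists_min f
    have hX : ∀ i j, f p0 ≤ X i j := fun i j => hp0 (Sum.inl (i, j))
    have hY : ∀ i j, f p0 ≤ Y i j := fun i j => hp0 (Sum.inr (Sum.inl (i, j)))
    have hZ : ∀ i j, f p0 ≤ Z i j := fun i j => hp0 (Sum.inr (Sum.inr (i, j)))
    have key : (1 - 2 * x) / n ≤ f p0 := by
      rcases p0 with p | p | p
      · exact core hw hs h4 hx hb _ hY hZ p.1 p.2 rfl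
      · exact core hw.rot hs.rot h4 hx ⟨hb.2.1, hb.2.2, hb.1⟩ _ hZ hX p.1 p.2 rfl
      · exact core hw.rot.rot hs.rot.rot h4 hx ⟨hb.2.2, hb.1, hb.2.1⟩ _ hX hY p.1 p.2 rfl
    exact ⟨fun i j => key.trans (hX i j), fun i j => key.trans (hY i j),
      fun i j => key.trans (hZ i j)⟩

end Pool.Agent.Helper34.FZ
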